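import Pool.Agent.Helper56_MG.Base2
import Pool.Agent.Helper56_MG.Stmts2

/-!
INFO: the sum of an element of the first set and of an element of the second set is infinite.
-/

open Set

namespace Pool.Agent.MG.H33

open Pool.Agent.FL (Ix)

/-- the first sequence -/
def xs (k : Ix) (F : Finset ℕ) (z : PJ) : R := chg (z (JJ.s k)) F

/-- the second sequence -/
def ys (j : Bool × Ix × Finset ℕ) (z : PJ) : R :=
  if j.1 then chg (cpl (z (JJ.s j.2.1))) j.2.2
        else chg (sm (z (JJ.s j.2.1)) (z (JJ.m j.2.1))) j.2.2

theorem measurable_coord (i : JJ) (N : ℕ) : Measurable (fun z : PJ => z i N) :=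
  (measurable_pi_apply N).comp (measurable_pi_apply i)

theorem measurable_bool2 (f : Bool → Bool → Bool) {g h : PJ → Bool} (hg : Measurable g)
    (hh : Measurable h) : Measurable (fun z => f (g z) (h z)) :=
  (measurable_of_countable (fun z : Bool × Bool => f z.1 z.2)).comp (hg.prodMk hh)

theorem measurable_bool1 (f : Bool → Bool) {g : PJ → Bool} (hg : Measurable g) :
    Measurable (fun z => f (g z)) := (measurable_of_countable f).comp hg

theorem measurable_xs (k : Ix) (F : Finset ℕ) : Measurable (xs k F) := by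
  refine measurable_pi_lambda _ fun N => ?_
  exact measurable_bool1 (fun a => xor a (decide (N ∈ F))) (measurable_coord (JJ.s k) N)

theorem measurable_ys (j : Bool × Ix × Finset ℕ) : Measurable (ys j) := by
  refine measurable_pi_lambda _ fun N => ?_
  obtain ⟨b, l, G⟩ := j
  cases b with
  | true =>
    exact measurable_bool1 (fun a => xor (!a) (decide (N ∈ G))) (measurable_coord (JJ.s l) N)
  | false =>
    exact measurable_bool2 (fun a a' => xor (xor a a') (decide (N ∈ G)))
      (measurable_coord (JJ.s l) N) (measurable_coord (JJ.m l) N)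

theorem dep_xs (k : Ix) (F : Finset ℕ) : Dep te (xs k F) := by
  intro y y' h
  unfold xs
  rw [h (JJ.s k) (by simp)]

theorem dep_ys (j : Bool × Ix × Finset ℕ) : Dep te (ys j) := by
  intro y y' h
  unfold ys
  rw [h (JJ.s j.2.1) (by simp), h (JJ.m j.2.1) (by simp)]

/-- the two sequences differ at a big number, after a strengthening of the condition -/
theorem diff (hE : ExtdStmt) (k : Ix) (F : Finset ℕ) (j : Bool × Ix × Finset ℕ) (r : PP) (L : ℕ) :
    ∃ r' ≤ r, ∃ N, L ≤ N ∧ ∀ z ∈ r'.1.body, xs k F z N ≠ ys j z N := by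
  obtain ⟨b, l, G⟩ := j
  -- the numbers from `M` on are not in the two finite sets
  set M : ℕ := max L (max (F.sup id + 1) (G.sup id + 1)) with hM
  have hLM : L ≤ M := le_max_left _ _
  have hF : ∀ N, M ≤ N → N ∉ F := by
    intro N hN h
    have h1 : N ≤ F.sup id := Finset.le_sup (f := id) h
    have h2 : F.sup id + 1 ≤ M := (le_max_left _ _).trans (le_max_right _ _)
    omega
  have hG : ∀ N, M ≤ N → N ∉ G := by
    intro N hN h
    have h1 : N ≤ G.sup id := Finset.le_sup (f := id) h
    have h2 : G.sup id + 1 ≤ M := (le_max_right _ _).trans (le_max_right _ _)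
    omega
  -- use of EXTD
  have use : ∀ (i : JJ) (w : PJ → ℕ → Bool), i < te → (∀ N, Measurable fun z => w z N) →
      (∀ y y' : PJ, (∀ i', i' < i → y i' = y' i') → w y = w y') →
      (∀ z N, M ≤ N → z i N ≠ w z N → xs k F z N ≠ ys (b, l, G) z N) →
      ∃ r' ≤ r, ∃ N, L ≤ N ∧ ∀ z ∈ r'.1.body, xs k F z N ≠ ys (b, l, G) z N := by
    intro i w hi hw hd h
    obtain ⟨q, hq, N, hN, h1⟩ := hE i hi r w (measurable_pi_lambda _ hw) hd M
    exact ⟨q, hq, N, hLM.trans hN, fun z hz => h z N hN (h1 z hz)⟩
  cases b with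
  | true =>
    have key : ∀ z N, M ≤ N → z (JJ.s k) N = z (JJ.s l) N →
        xs k F z N ≠ ys (true, l, G) z N := by
      intro z N hN h
      simp only [xs, ys, chg, cpl, if_true, hF N hN, hG N hN, decide_false, h]
      cases z (JJ.s l) N <;> simp
    rcases lt_trichotomy k l with hkl | rfl | hkl
    · refine use (JJ.s l) (fun z N => !(z (JJ.s k) N)) (by simp)
        (fun N => measurable_bool1 _ (measurable_coord _ N)) ?_ ?_
      · intro y y' h
        funext N
        rw [h (JJ.s k) (by simpa using hkl)]
      · intro z N hN h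
        apply key z N hN
        revert h
        cases z (JJ.s l) N <;> cases z (JJ.s k) N <;> simp
    · exact ⟨r, le_rfl, M, hLM, fun z _ => key z M le_rfl rfl⟩
    · refine use (JJ.s k) (fun z N => !(z (JJ.s l) N)) (by simp)
        (fun N => measurable_bool1 _ (measurable_coord _ N)) ?_ ?_
      · intro y y' h
        funext N
        rw [h (JJ.s l) (by simpa using hkl)]
      · intro z N hN h
        apply key z N hN
        revert h
        cases z (JJ.s l) N <;> cases z (JJ.s k) N <;> simp
  | false =>
    have key : ∀ z N, M ≤ N → z (JJ.s k) N ≠ xor (z (JJ.s l) N) (z (JJ.m l) N) →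
        xs k F z N ≠ ys (false, l, G) z N := by
      intro z N hN h
      have e1 : xs k F z N = z (JJ.s k) N := by
        simp [xs, chg, hF N hN]
      have e2 : ys (false, l, G) z N = xor (z (JJ.s l) N) (z (JJ.m l) N) := by
        simp [ys, chg, sm, hG N hN]
      rw [e1, e2]
      exact h
    rcases le_or_gt k l with hkl | hkl
    · refine use (JJ.m l) (fun z N => xor (z (JJ.s k) N) (z (JJ.s l) N)) (by simp)
        (fun N => measurable_bool2 _ (measurable_coord _ N) (measurable_coord _ N)) ?_ ?_
      · intro y y' h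
        funext N
        rw [h (JJ.s k) (by simpa using hkl), h (JJ.s l) (by simp)]
      · intro z N hN h
        apply key z N hN
        revert h
        cases z (JJ.s l) N <;> cases z (JJ.s k) N <;> cases z (JJ.m l) N <;> simp
    · refine use (JJ.s k) (fun z N => xor (z (JJ.s l) N) (z (JJ.m l) N)) (by simp)
        (fun N => measurable_bool2 _ (measurable_coord _ N) (measurable_coord _ N)) ?_ ?_
      · intro y y' h
        funext N
        rw [h (JJ.s l) (by simpa using hkl), h (JJ.m l) (by simpa using hkl)]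
      · intro z N hN h
        exact key z N hN h

theorem diffs (hE : ExtdStmt) (k : Ix) (F : Finset ℕ) (j : Bool × Ix × Finset ℕ) (m : ℕ) :
    ∀ r : PP, ∃ r' ≤ r, ∃ S : Finset ℕ, S.card = m ∧
      ∀ N ∈ S, ∀ z ∈ r'.1.body, xs k F z N ≠ ys j z N := by
  induction m with
  | zero => exact fun r => ⟨r, le_rfl, ∅, rfl, fun N hN => absurd hN (by simp)⟩
  | succ m ih =>
    intro r
    obtain ⟨r1, h1, S, h2, h3⟩ := ih r
    obtain ⟨r2, h4, N, h5, h6⟩ := diff hE k F j r1 (S.sup id + 1)
    have hN : N ∉ S := by
      intro h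
      have : N ≤ S.sup id := Finset.le_sup (f := id) h
      omega
    refine ⟨r2, h4.trans h1, insert N S, by rw [Finset.card_insert_of_notMem hN, h2], ?_⟩
    intro N' hN' z hz
    rcases Finset.mem_insert.1 hN' with rfl | h
    · exact h6 z hz
    · exact h3 N' h z (h4 hz)

theorem zip_pre (x x' : R) (M : ℕ) :
    (pre x M).zip (pre x' M) = (List.range M).map fun i => (x i, x' i) := by
  unfold pre
  rw [List.zip_map']

theorem count_diff (x x' : R) (M : ℕ) (S : Finset ℕ) (hS : ∀ N ∈ S, N < M)
    (h : ∀ N ∈ S, x N ≠ x' N) :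
    S.card ≤ (((pre x M).zip (pre x' M)).filter (fun z => xor z.1 z.2)).length := by
  rw [zip_pre, List.filter_map, List.length_map]
  have h1 : S ⊆ ((List.range M).filter ((fun z : Bool × Bool => xor z.1 z.2) ∘
      fun i => (x i, x' i))).toFinset := by
    intro N hN
    rw [List.mem_toFinset, List.mem_filter, List.mem_range]
    refine ⟨hS N hN, ?_⟩
    have := h N hN
    simp only [Function.comp_apply]
    revert this
    cases x N <;> cases x' N <;> simp
  exact (Finset.card_le_card h1).trans (List.toFinset_card_le _)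

theorem measC_pre {f : PJ → R} (hf : Measurable f) (M : ℕ) : MeasC fun z => pre (f z) M :=
  measC_of_countable fun s => hf (measurableSet_pre_eq M s)

theorem info (hE : ExtdStmt) (hConst : JConstStmt) : InfoStmt := by
  intro k F j r n
  obtain ⟨r1, h1, S, h2, h3⟩ := diffs hE k F j (n + 1) r
  set M : ℕ := S.sup id + 1 with hM
  have hS : ∀ N ∈ S, N < M := by
    intro N hN
    have : N ≤ S.sup id := Finset.le_sup (f := id) hN
    omega
  obtain ⟨q, hq1, hq2, c, hc⟩ := hConst.1 te r1.1 r1.2 (Node × Node)
    (fun z => (pre (xs k F z) M, pre (ys j z) M))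
    ((measC_pre (measurable_xs k F) M).prodMk (measC_pre (measurable_ys j) M))
    (fun y y' h => by
      simp only
      rw [dep_xs k F y y' h, dep_ys j y y' h])
  obtain ⟨z0, hz0⟩ := q.body_nonempty
  refine ⟨⟨q, hq2⟩, le_trans (b := r1) hq1 h1, c.1, c.2, ?_, ?_, ?_⟩
  · rw [← hc z0 hz0]
    simp
  · rw [← hc z0 hz0]
    have := count_diff (xs k F z0) (ys j z0) M S hS fun N hN => h3 N hN z0 (hq1 hz0)
    simp only
    omega
  · intro z hz
    have h4 := hc z hz
    have e1 : c.1 = pre (xs k F z) M := by rw [← h4]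
    have e2 : c.2 = pre (ys j z) M := by rw [← h4]
    rw [e1, e2]
    exact ⟨on_pre _ _, on_pre _ _⟩

end Pool.Agent.MG.H33

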